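import Pool.Agent.H75.GG.Targets

/-! Row MRG of `gsg_modules`: the keys of the second machine do not matter. -/

set_option autoImplicit false

namespace Pool.Agent.H79.GG

open Finset Filter Pool.Agent.H6.NB Pool.Agent.H70.OQ Pool.Agent.H75.GS Pool.Agent.H75.GG

/-- the copies for two machines from the copies for the first one -/
def mrgExt {Ω : Type} {nn qb : Ω → ℕ} (P : Blk nn qb) : Blk (nn2 nn) (qb2 qb)
  | .inl s => P s
  | .inr _ => fun i => Fin.elim0 i

theorem mrgExt_bij {Ω : Type} {nn qb : Ω → ℕ} :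
    Function.Bijective (mrgExt : Blk nn qb → Blk (nn2 nn) (qb2 qb)) := by
  constructor
  · intro P Q h
    funext s
    exact congrFun h (.inl s)
  · intro P'
    refine ⟨fun s => P' (.inl s), ?_⟩
    funext s
    rcases s with s | s
    · rfl
    · funext i
      exact Fin.elim0 i

theorem pf_MRG (h9 : Pool.Agent.H6.NB.T_MUP) : T_MRG := by
  intro Ω _ _ nn qb G G' c hG hsum
  have hW0 : ∀ (κ : Ω → Bool) (P : Blk nn qb), 0 ≤ WtB κ P := fun κ P =>
    Finset.prod_nonneg fun s _ => Finset.prod_nonneg fun i _ => (h9 (κ s) (qb s)).1 _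
  have hW : ∀ (κ κ₂ : Ω → Bool) (P : Blk nn qb), WtB (Sum.elim κ κ₂) (mrgExt P) = WtB κ P := by
    intro κ κ₂ P
    unfold WtB
    rw [Fintype.prod_sum_type]
    have h1 : (∏ s : Ω, ∏ i, Pool.Agent.H6.NB.mu ((Sum.elim κ κ₂ : Ω ⊕ Ω → Bool) (.inr s))
        (qb2 qb (.inr s)) (mrgExt P (.inr s) i)) = 1 :=
      Finset.prod_eq_one fun s _ => Finset.prod_eq_one fun i _ => Fin.elim0 i
    rw [h1, mul_one]
    rfl
  have hkey : ∀ κ κ₂ : Ω → Bool, ∑ P : Blk nn qb, WtB κ P * G κ P ≤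
      ∑ P' : Blk (nn2 nn) (qb2 qb), WtB (Sum.elim κ κ₂) P' * G' (Sum.elim κ κ₂) P' := by
    intro κ κ₂
    rw [← Function.Bijective.sum_comp (mrgExt_bij (nn := nn) (qb := qb))]
    refine Finset.sum_le_sum fun P _ => ?_
    rw [hW]
    exact mul_le_mul_of_nonneg_left (hG κ P _ _ (fun s => rfl) fun s => rfl) (hW0 κ P)
  have h2 : (2 : ℝ) ^ Fintype.card Ω * ∑ κ : Ω → Bool, ∑ P : Blk nn qb, WtB κ P * G κ P ≤
      c * 2 ^ (2 * Fintype.card Ω) := by
    refine le_trans ?_ hsum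
    rw [← (Equiv.sumArrowEquivProdArrow Ω Ω Bool).symm.sum_comp, Fintype.sum_prod_type_right]
    have h3 : (2 : ℝ) ^ Fintype.card Ω * ∑ κ : Ω → Bool, ∑ P : Blk nn qb, WtB κ P * G κ P =
        ∑ _κ₂ : Ω → Bool, ∑ κ : Ω → Bool, ∑ P : Blk nn qb, WtB κ P * G κ P := by
      rw [Finset.sum_const, Finset.card_univ, Fintype.card_fun, Fintype.card_bool, nsmul_eq_mul]
      push_cast
      rfl
    rw [h3]
    exact Finset.sum_le_sum fun κ₂ _ => Finset.sum_le_sum fun κ _ => hkey κ κ₂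
  have h4 : (0 : ℝ) < 2 ^ Fintype.card Ω := by positivity
  rw [two_mul, pow_add, ← mul_assoc, mul_comm] at h2
  exact le_of_mul_le_mul_right h2 h4

end Pool.Agent.H79.GG
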